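import Pool.Agent.W601.RP.Stm2

/-! RP-NODE: basic facts on nodes. -/

set_option autoImplicit false
open scoped Classical

namespace Pool.Agent.W513.RP

open Pool.Agent.W601.RP

theorem idx_inj (l l' : List Letter) (h : idx l = idx l') : l = l' := by
  unfold idx at h
  exact Encodable.encode_injective (Nat.pair_eq_pair.mp h).1

theorem nod_idx (l : List Letter) (h : Nd l) : nod (idx l) = l := by
  have hex : ∃ m, Nd m ∧ idx m = idx l := ⟨l, h, rfl⟩
  unfold nod
  rw [dif_pos hex]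
  exact idx_inj _ _ hex.choose_spec.2

theorem lst_mem (l : List Letter) (h : l ≠ []) : lst l ∈ l := by
  unfold lst
  rw [List.getLastD_eq_getLast?, List.getLast?_eq_getLast_of_ne_nil h]
  exact List.getLast_mem h

theorem foll_of_prefix (l l' : List Letter) (hl : Nd l) (hl' : Nd l') (hp : l <+: l') (hne : l ≠ l') :
    Foll (lst l) (lst l') := by
  obtain ⟨r, rfl⟩ := hp
  have hr : r ≠ [] := by
    intro h
    apply hne
    rw [h, List.append_nil]
  have h1 : lst l ∈ l := lst_mem l hl.1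
  have h2 : lst (l ++ r) = lst r := by
    unfold lst
    rw [List.getLastD_eq_getLast?, List.getLastD_eq_getLast?, List.getLast?_append,
      List.getLast?_eq_getLast_of_ne_nil hr]
    rfl
  rw [h2]
  exact (List.pairwise_append.mp hl'.2.2).2.2 _ h1 _ (lst_mem r hr)

theorem node : S_NODE := by
  refine ⟨idx_inj, nod_idx, ?_, ?_, ?_, ?_, ?_, ?_⟩
  · rintro t ⟨l, hl, rfl⟩
    have hn := nod_idx l hl
    have hlt : lt (idx l) = lst l := by unfold lt; rw [hn]
    rw [hn, hlt]
    have hg : GoodL (lst l) := hl.2.1 _ (lst_mem l hl.1)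
    have hle : nL (lst l) ≤ idx l := Nat.right_le_pair _ _
    exact ⟨hl, rfl, hg, hle, hg.1, le_trans hg.2.1 hle, hg.2.2.2.1, le_trans hg.1 hg.2.1⟩
  · rintro t u ⟨l, l', hl, hl', rfl, rfl, hp, hne⟩
    refine ⟨⟨l, hl, rfl⟩, ⟨l', hl', rfl⟩, fun h => hne (idx_inj _ _ h), ?_⟩
    have h1 : lt (idx l) = lst l := by unfold lt; rw [nod_idx l hl]
    have h2 : lt (idx l') = lst l' := by unfold lt; rw [nod_idx l' hl']
    rw [h1, h2]
    exact foll_of_prefix l l' hl hl' hp hne
  · rintro t u v ⟨l, l', hl, hl', rfl, rfl, hp, hne⟩ ⟨m, m', hm, hm', hmu, rfl, hq, hne'⟩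
    have e : m = l' := idx_inj _ _ hmu
    subst e
    refine ⟨l, m', hl, hm', rfl, rfl, hp.trans hq, ?_⟩
    intro h
    subst h
    exact hne (hp.eq_of_length (le_antisymm hp.length_le hq.length_le))
  · rintro t ⟨l, l', hl, hl', h1, h2, hp, hne⟩
    exact hne (idx_inj _ _ (h1.trans h2.symm))
  · rintro t u v ⟨l, l', hl, hl', rfl, rfl, hp, hne⟩ ⟨m, m', hm, hm', rfl, hmv, hq, hne'⟩
    have e : m' = l' := idx_inj _ _ hmv
    subst e
    by_cases hlm : l = m
    · exact Or.inl (by rw [hlm])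
    · rcases List.prefix_or_prefix_of_prefix hp hq with h | h
      · exact Or.inr (Or.inl ⟨l, m, hl, hm, rfl, rfl, h, hlm⟩)
      · exact Or.inr (Or.inr ⟨m, l, hm, hl, rfl, rfl, h, fun h' => hlm h'.symm⟩)
  · intro v
    refine Set.Finite.subset ((List.finite_toSet (nod v).inits).image idx) ?_
    rintro t ⟨l, l', hl, hl', rfl, rfl, hp, hne⟩
    refine ⟨l, ?_, rfl⟩
    rw [nod_idx l' hl']
    exact (List.mem_inits _ _).mpr hp

end Pool.Agent.W513.RP
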